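import Pool.Agent.Work.MP_0c1432_nt_ap.Ap

/-!
# Progressions in which almost every shift is good

Let `s = 1` or `s = -1`. Call `h ≥ 1` good if, for some `c > 0` and arbitrarily large `x`, at least
`c x / (log x)^2` primes `p ≤ x` have `Ω(p + s h)` odd. For every `ε > 0` there is `M₀` such that for
every multiple `M` of `M₀` either all the multiples of `M` are good, or in every residue class
`a` modulo `M` with `gcd(a, M) = 1` the good integers have relative lower density at least `1 - ε`.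

Proof. By Hindman's theorem for the two parities of `Ω` there are `A₀ < A₁ < …` such that all the
differences `k = Aⱼ - Aᵢ` are even with `Ω(k)` odd. Put `M₀ = (Aₘ)!`, `m > 1 / ε`. If some multiple `w`
of `M` is not good and `gcd(v, M) = 1`, then at most one of `v + A₀ w, …, v + Aₘ₋₁ w` is not good, by
Chen's theorem for `k n - v` (if `n` is a product of two primes then `Ω(p + v) = Ω(k) + 2` is odd; if
`n` is prime then `p + v + k w = k (n + w)`). All of them are in the class of `v` modulo `M`.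
-/

set_option autoImplicit false

namespace Pool.Agent.Results.MP_0c1432_nt.AlmostWholeProgressions

open Filter ArithmeticFunction

theorem result : ∀ ε : ℝ, 0 < ε → ∃ M₀ : ℕ, 0 < M₀ ∧ ∀ M : ℕ, 0 < M → M₀ ∣ M →
    ∀ s : ℤ, s = 1 ∨ s = -1 →
      (∀ h : ℕ, 1 ≤ h → M ∣ h →
        ∃ c : ℝ, 0 < c ∧ ∃ᶠ x : ℕ in atTop,
          c * (x / (Real.log x) ^ 2) ≤
            ({p : ℕ | p ≤ x ∧ p.Prime ∧
              Odd (cardFactors ((p : ℤ) + s * h).toNat)}.ncard : ℝ)) ∨
      (∀ a : ℕ, Nat.Coprime a M → ∀ᶠ N : ℕ in atTop, (1 - ε) * ((N : ℝ) / M) ≤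
        ({h : ℕ | 1 ≤ h ∧ h ≤ N ∧ h ≡ a [MOD M] ∧
          ∃ c : ℝ, 0 < c ∧ ∃ᶠ x : ℕ in atTop,
            c * (x / (Real.log x) ^ 2) ≤
              ({p : ℕ | p ≤ x ∧ p.Prime ∧
                Odd (cardFactors ((p : ℤ) + s * h).toNat)}.ncard : ℝ)}.ncard : ℝ)) :=
  fun _ hε => Pool.Agent.ShiftAP.progressions hε

end Pool.Agent.Results.MP_0c1432_nt.AlmostWholeProgressions
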