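import Pool.Agent.Work.MP_0c1432_nt_h31.Forms

/-!
# The parity of the number of prime factors of `p - h` for most shifts `h`

(1) Let `s = 1` or `s = -1`. The set of the integers `h ≥ 1` such that, for some `c > 0` and
arbitrarily large `x`, at least `c x / (log x)^2` primes `p ≤ x` have `Ω(p + s h)` odd, has lower
density at least `11 / 20`.

(2) Let `k` be even with `Ω(k)` odd. Then at least `c x / (log x)^2` of the primes `p ≤ x` do not have
the pattern `Ω(p - 1)` even, `Ω((k - 1) p + 1) ≡ b` modulo `2`.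

Proof. By Chen's theorem (proved in the imported files) there are many `n`, prime or product of two
primes, with `p = k n - v` prime, if `gcd(k, v) = 1` and `k v` is even. If `n = q₁ q₂` then
`Ω(p + v) = Ω(k) + 2`. If `n` is prime then `p + v + k w = k (n + w)`. So if `Ω(k)` is odd the three
shifts `v`, `w`, `v + k w` are not all exceptional. For odd `v` take `k = 2, 8`: of
`v, v + 2w, v + 4w, v + 6w, v + 8w` at most two are exceptional. For even `v`, `w` take for `k` a
large prime. For (2) take `v = -1` and the forms `(k - 1) p + 1 = k ((k - 1) n + 1)`.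
-/

set_option autoImplicit false

namespace Pool.Agent.Results.MP_0c1432_nt.MajorityOfShifts

open Filter ArithmeticFunction

theorem result :
    (∀ s : ℤ, s = 1 ∨ s = -1 → ∀ ε : ℝ, 0 < ε → ∀ᶠ N : ℕ in atTop,
      (11 / 20 - ε) * N ≤
        ({h : ℕ | 1 ≤ h ∧ h ≤ N ∧ ∃ c : ℝ, 0 < c ∧ ∃ᶠ x : ℕ in atTop,
          c * (x / (Real.log x) ^ 2) ≤
            ({p : ℕ | p ≤ x ∧ p.Prime ∧
              Odd (cardFactors ((p : ℤ) + s * h).toNat)}.ncard : ℝ)}.ncard : ℝ)) ∧
    (∀ k b : ℕ, Even k → Odd (cardFactors k) → ∃ c : ℝ, 0 < c ∧ ∀ᶠ x : ℕ in atTop,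
      c * (x / (Real.log x) ^ 2) ≤
        ({p : ℕ | p ≤ x ∧ p.Prime ∧
          ¬ (Even (cardFactors (p - 1)) ∧
            cardFactors ((k - 1) * p + 1) ≡ b [MOD 2])}.ncard : ℝ)) :=
  ⟨fun _ hs _ hε => Pool.Agent.MajorityShifts.majority hs hε,
    fun _ b hk hodd => Pool.Agent.MajorityShifts.companions hk hodd b⟩

end Pool.Agent.Results.MP_0c1432_nt.MajorityOfShifts
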