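import Pool.Agent.Work.MP_0c1432_nt_h67.Patterns

/-!
# The parity patterns of `Ω(p - 1)` and `Ω(p + 1)`

Let `a`, `b` be two parities, not both odd. Then at least `c x / (log x)^2` of the primes `p ≤ x` do
not have the pattern `Ω(p - 1) ≡ a`, `Ω(p + 1) ≡ b` modulo `2`.

* `a`, `b` even: at least one of `Ω(p - 1)`, `Ω(p + 1)` is odd for infinitely many primes `p`.
* `a` even, `b` arbitrary: either `Ω(p - 1)` is odd for infinitely many primes `p`, or `Ω(p + 1)` takes
  both parities for infinitely many primes `p`.

Proof for `a` even: by Chen's theorem (for `(p - 1) / 2`, proved in the imported files) there are many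
primes `p = 2 n + 1` with `n` a prime or a product of two primes. In the second case
`Ω(p - 1) = 3`. In the first case `n` is a prime and `p + 1 = 2 (n + 1)`, so that `Ω(p + 1)` and
`Ω(n + 1)` differ in parity. For `a` odd and `b` even the same argument with `p = 2 n - 1`.
-/

set_option autoImplicit false

namespace Pool.Agent.Results.MP_0c1432_nt.NeighbourPatterns

open Filter ArithmeticFunction

theorem result : ∀ a b : ℕ, ¬ (Odd a ∧ Odd b) → ∃ c : ℝ, 0 < c ∧ ∀ᶠ x : ℕ in atTop,
    c * (x / (Real.log x) ^ 2) ≤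
      ({p : ℕ | p ≤ x ∧ p.Prime ∧
        ¬ (cardFactors (p - 1) ≡ a [MOD 2] ∧ cardFactors (p + 1) ≡ b [MOD 2])}.ncard : ℝ) :=
  Pool.Agent.ChenShift.patterns

end Pool.Agent.Results.MP_0c1432_nt.NeighbourPatterns
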