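import Pool.Agent.Work.MP_0c1432_nt_h67.Patterns

/-!
# Pairs of shifts `p - 1`, `p - 1 + k` and the parity of the number of prime factors

Let `k` be a nonzero integer such that `Ω(|k|)` is odd, and let `b` be a parity; if `k` is negative
let `k` and `b` be even. Then at least `c x / (log x)^2` of the primes `p ≤ x` do not have the pattern
`Ω(p - 1) ≡ b` modulo `2`, `Ω(p - 1 + k)` even.

* `b` even: at least one of `Ω(p - 1)`, `Ω(p - 1 + k)` is odd for infinitely many primes `p`.
* `k > 0`: either `Ω(p - 1 + k)` is odd for infinitely many primes `p`, or `Ω(p - 1)` takes both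
  parities for infinitely many primes `p`.

Proof for `k > 0`: by Chen's theorem (proved in the imported files) there are many `n`, prime or
product of two primes, with `p = k n - (k - 1)` prime. If `n = q₁ q₂` then
`Ω(p - 1 + k) = Ω(k n)` is odd. If `n` is prime, then `p - 1 = k (n - 1)`, so `Ω(p - 1)` and
`Ω(n - 1)` differ in parity. For `k < 0` one takes `p = |k| n + 1` and `p - 1 + k = |k| (n - 1)`.
-/

set_option autoImplicit false

namespace Pool.Agent.Results.MP_0c1432_nt.ShiftPairs

open Filter ArithmeticFunction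

theorem result : ∀ (k : ℤ) (b : ℕ), Odd (cardFactors k.natAbs) → (0 < k ∨ (Even k ∧ Even b)) →
    ∃ c : ℝ, 0 < c ∧ ∀ᶠ x : ℕ in atTop,
    c * (x / (Real.log x) ^ 2) ≤
      ({p : ℕ | p ≤ x ∧ p.Prime ∧
        ¬ (cardFactors (p - 1) ≡ b [MOD 2] ∧
          Even (cardFactors ((p : ℤ) - 1 + k).toNat))}.ncard : ℝ) :=
  Pool.Agent.ChenShift.pair_patterns

end Pool.Agent.Results.MP_0c1432_nt.ShiftPairs
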